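import Pool.Agent.X288.LN.ExA3

/-!
# A variety of type A on which all locally nilpotent derivations vanish along a curve

Let `Y` be the smooth affine surface with coordinate ring
`B = K[x, 1/(1-x), s, v, w]`, `s = x² t`, `v = s (s+1) / x = x t (s+1)`, `w = s (s+1)² / x² = t (s+1)²`
(a subring of `K(x)[t]`). It is a torsor under a nontrivial line bundle over the punctured affine
line with a double origin. Since `1 - x` is a unit, every locally nilpotent derivation kills `x`;
it is then a multiple `γ d/dt` with `γ` regular at `x = 0`, and it vanishes on the curve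
`x = 0, s = -1`. So `I(Y) ≠ K[Y]`. On the other hand the cylinder `Y × A¹` has the automorphisms
`s ↦ s + δ x η`, `u ↦ u - δ η` with `η = (s + (s + x u)²) / x = v + 2 s u + x u²`, and they show
that `Y` is of type A.
-/

set_option autoImplicit false

open Polynomial Pool.Agent.X288.LN

universe u

namespace Pool.Agent.Results.MP_37b72a_ag.HiddenFlexibility

theorem exists_example (K O : Type u) [Field K] [CharZero K] [CommRing O] [Algebra K O]
    [IsDomain O] [CharZero O] (x a : O) (π : O →+* K) (hπ : π x = 0) (hx0 : x ≠ 0)
    (ha : (1 - x) * a = 1) :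
    ∃ (R : Type u) (_ : CommRing R) (_ : IsDomain R) (_ : Algebra K R),
      Algebra.FiniteType K R ∧ HDstar K R[X] = ⊤ ∧ imageIdeal K R ≠ ⊤ ∧
      ∃ m : Ideal R, m.IsMaximal ∧ ∀ D : Derivation K R R, IsLND D → ∀ b, D b ∈ m := by
  have hne := A.imageIdeal_ne_top K x a π hπ hx0 ha
  obtain ⟨m, hm, hle⟩ := Ideal.exists_le_maximal _ hne
  refine ⟨A.B K x a, inferInstance, inferInstance, inferInstance, ?_, A.typeA K x a, hne, m, hm,
    fun D hD b => hle (Ideal.subset_span ⟨D, b, hD, rfl⟩)⟩
  rw [← Subalgebra.fg_iff_finiteType, Subalgebra.fg_def]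
  refine ⟨A.gens x a, ?_, rfl⟩
  unfold A.gens
  exact Set.toFinite _

/-- **The theorem.** Over every field `K` of characteristic zero there is a finitely generated
domain `R = K[Y]` such that `HD*(Y × A¹)` is the whole ring `K[Y × A¹] = R[X]` (`Y` is of type A)
while the ideal `I(Y)` generated by the images of all locally nilpotent derivations is proper;
so there is a point (maximal ideal) at which all locally nilpotent derivations vanish. -/
theorem result (K : Type u) [Field K] [CharZero K] :
    ∃ (R : Type u) (_ : CommRing R) (_ : IsDomain R) (_ : Algebra K R),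
      Algebra.FiniteType K R ∧ HDstar K R[X] = ⊤ ∧ imageIdeal K R ≠ ⊤ ∧
      ∃ m : Ideal R, m.IsMaximal ∧ ∀ D : Derivation K R R, IsLND D → ∀ b, D b ∈ m := by
  have : CharZero (PowerSeries K) :=
    charZero_of_injective_algebraMap (algebraMap K (PowerSeries K)).injective
  refine exists_example K (PowerSeries K) PowerSeries.X (1 - PowerSeries.X)⁻¹
    PowerSeries.constantCoeff (by simp) PowerSeries.X_ne_zero ?_
  apply PowerSeries.mul_inv_cancel
  simp

end Pool.Agent.Results.MP_37b72a_ag.HiddenFlexibility
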